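import Mathlib

/-!
Project PV (helper659): power saving, twists, truncated counting function, discriminants.
Definitions and statements of the tasks.
-/

set_option autoImplicit false

namespace Pool.Agent.W659.PV

open NumberField IsDedekindDomain

/-- MOM: the second moment method in the box `[1, L]^d` (proved: `Pool.Agent.H582R4.MOM.mom`, the same
statement as `Pool.Agent.H925R3.DD.MOM`) -/
def MOM : Prop := ∀ (d : ℕ) (S : Finset ℕ) (k X L : ℕ) (η : ℝ) (α β : ℕ → Fin d → ℤ)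
  (B : (p : ℕ) → Set (Fin d → ZMod p)), 1 ≤ d → 0 < η → η ≤ 1 →
  (∀ p ∈ S, p.Prime ∧ p ≤ X ∧ (∀ i, ¬ (p : ℤ) ∣ α p i) ∧
    (Nat.card (B p) : ℝ) ≤ (1 - η) * (p : ℝ) ^ d) →
  (Nat.card {t : Fin d → ℕ // (∀ i, t i ∈ Finset.Icc 1 L) ∧
      ∀ p ∈ S, (fun i => ((α p i * t i + β p i : ℤ) : ZMod p)) ∈ B p} : ℝ) *
    (η ^ (2 * k) * (S.card.choose k : ℝ) ^ 2) ≤
    (S.card.choose k : ℝ) * (L : ℝ) ^ d +
      (S.card.choose k : ℝ) ^ 2 * (d * (X : ℝ) ^ (2 * k) * (L : ℝ) ^ (d - 1))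

/-- MOMK: the second moment method in the box `[-H, H]^ι`, from MOM -/
def S_MOMK : Prop := MOM → ∀ (ι : Type) [Fintype ι] [Nonempty ι] (S : Finset ℕ) (k X H : ℕ) (η : ℝ)
  (B : (p : ℕ) → Set (ι → ZMod p)), 0 < η → η ≤ 1 →
  (∀ p ∈ S, p.Prime ∧ p ≤ X ∧ (((B p).ncard : ℕ) : ℝ) ≤ (1 - η) * (p : ℝ) ^ Fintype.card ι) →
  ((({c : ι → ℤ | (∀ i, |c i| ≤ H) ∧ ∀ p ∈ S, (fun i => (c i : ZMod p)) ∈ B p}.ncard : ℕ)) : ℝ) *
    (η ^ (2 * k) * (S.card.choose k : ℝ) ^ 2) ≤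
    (S.card.choose k : ℝ) * (2 * (H : ℝ) + 1) ^ Fintype.card ι +
      (S.card.choose k : ℝ) ^ 2 * (Fintype.card ι * (X : ℝ) ^ (2 * k) *
        (2 * (H : ℝ) + 1) ^ (Fintype.card ι - 1))

/-- PARK: the choice of the parameters -/
def S_PARK : Prop := ∀ (R M Y : ℕ) (κ τ η₀ : ℝ), 1 ≤ M → 0 < κ → 0 < τ → τ < 1 → 0 < η₀ → η₀ ≤ 1 →
  ∃ η : ℝ, 0 < η ∧ η < 1 ∧ ∃ H₀ : ℕ, 1 ≤ H₀ ∧ ∀ H : ℕ, H₀ ≤ H → ∃ y : ℕ, Y ≤ y ∧
    ∀ (s L : ℕ), κ * (y / Real.log y) ≤ (s : ℝ) → 1 ≤ L →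
      (L : ℝ) ≤ 2 * ((y : ℝ) + 1) ^ (2 * ⌊(y : ℝ) ^ τ⌋₊) →
      ∃ k : ℕ, 0 < s.choose k ∧
        (L : ℝ) ^ R * (((s.choose k : ℝ) * (2 * (H : ℝ) + 1) ^ M +
          (s.choose k : ℝ) ^ 2 * (M * (y : ℝ) ^ (2 * k) * (2 * (H : ℝ) + 1) ^ (M - 1))) /
          (η₀ ^ (2 * k) * (s.choose k : ℝ) ^ 2)) ≤ (H : ℝ) ^ ((M : ℝ) - η)

/-- the primes outside `S` at which `x` has odd valuation -/
def OddP {K : Type} [Field K] [NumberField K] (S : Set (HeightOneSpectrum (𝓞 K))) (x : K) :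
    Set (HeightOneSpectrum (𝓞 K)) :=
  {v | v ∉ S ∧ ¬ IsSquare (v.valuation K x)}

/-- the product of the norms of these primes -/
noncomputable def oddNorm {K : Type} [Field K] [NumberField K]
    (S : Set (HeightOneSpectrum (𝓞 K))) (x : K) : ℕ :=
  ∏ᶠ v ∈ OddP S x, Ideal.absNorm v.asIdeal

/-- CLS2: the number of classes modulo squares with small odd part -/
def S_CLS2 : Prop := ∀ (K : Type) [Field K] [NumberField K]
  (S : Set (HeightOneSpectrum (𝓞 K))), S.Finite → ∃ C : ℕ, ∀ D : ℕ, 1 ≤ D → ∃ Δ : Finset Kˣ,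
    Δ.card ≤ C * D ^ 2 ∧ ∀ x : K, x ≠ 0 → oddNorm S x ≤ D →
      ∃ δ ∈ Δ, ∃ s : K, s ≠ 0 ∧ x = ((δ : Kˣ) : K) * s ^ 2

/-- DISC: square roots and discriminants -/
def S_DISC : Prop := ∀ (K : Type) [Field K] [NumberField K]
    (L : Type) [Field L] [NumberField L] [Algebra K L] (x : K) (w : L), x ≠ 0 →
      w ^ 2 = algebraMap K L x →
        oddNorm (∅ : Set (HeightOneSpectrum (𝓞 K))) x ^ Module.finrank K L *
          (NumberField.discr K).natAbs ^ (2 * Module.finrank K L) ≤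
            (NumberField.discr L).natAbs ^ 2

end Pool.Agent.W659.PV
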