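import Pool.Agent.W659.PV.Odd
import Pool.Agent.W688.PV.PARK

/-! Project PV (helper659): truncated counting functions and discriminants. -/

set_option autoImplicit false

namespace Pool.Agent.W659.PV

open MvPolynomial NumberField IsDedekindDomain Pool.Agent.H901R3.MS WeierstrassCurve
  Pool.Agent.W659.SA

theorem mainT : MainT :=
  mainT_aux locT primesY Pool.Agent.H582R4.MOM.mom Pool.Agent.W688.PV.MOMK.main
    Pool.Agent.W688.PV.PARK.main

theorem smallOdd : SmallOdd := smallOdd_aux mainT Pool.Agent.W591.PV.main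

/-! ### Equations over a subfield -/

/-- the coefficient vectors of the `t ∈ (𝓞 K)ⁿ` in a box over which there is a `P ∈ A(K)` with
`G_e(P; t) = 0` for all `e` and such that the odd parts outside `S` of all the nonzero `F_i(P; t)`
have norm at most `D` -/
def FibO (k : Type) [Field k] {K : Type} [Field K] [NumberField K] [Algebra k K] {N : ℕ}
    (ω : Module.Basis (Fin N) ℤ (𝓞 K)) {r n q m : ℕ} (a b : Fin r → ℤ)
    (S : Set (HeightOneSpectrum (𝓞 K))) (G : Fin q → Pol0 (𝓞 k) r n)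
    (F : Fin m → Pol0 (𝓞 k) r n) (D H : ℕ) : Set (Fin n × Fin N → ℤ) :=
  {c | (∀ i, |c i| ≤ H) ∧ ∃ V : Fin r → Fin 3 → K, (∀ i, FD.OnE (a i) (b i) (V i)) ∧
    (∀ e, vl0 (toL k K) (G e) V (fun i => ((vec ω c i : 𝓞 K) : K)) = 0) ∧
      ∀ i, vl0 (toL k K) (F i) V (fun i => ((vec ω c i : 𝓞 K) : K)) = 0 ∨
        oddNorm S (vl0 (toL k K) (F i) V (fun i => ((vec ω c i : 𝓞 K) : K))) ≤ D}

theorem oddExt (k : Type) [Field k] [NumberField k] (r n q m : ℕ)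
    (a b : Fin r → ℤ) (hab : ∀ i, a i * b i = 0 ∧ (a i ≠ 0 ∨ b i ≠ 0))
    (G : Fin q → Pol0 (𝓞 k) r (n + 1)) (d' : Fin q → Fin r → ℕ) (hG : ∀ e, MHomog (G e) (d' e))
    (F : Fin m → Pol0 (𝓞 k) r (n + 1)) (d : Fin m → Fin r → ℕ)
    (hd : ∀ e i, Even (d e i)) (hF : ∀ e, MHomog (F e) (d e)) (σ : k →+* ℂ)
    (hns : ∀ (V : Fin r → Fin 3 → ℂ), (∀ i, FD.OnE (a i) (b i) (V i)) →
      (∃ e, spc0 (toC σ) (G e) V ≠ 0) ∨
        ∃ e, ∀ g : MvPolynomial (Fin (n + 1)) ℂ, spc0 (toC σ) (F e) V ≠ g ^ 2)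
    (K : Type) [Field K] [NumberField K] [Algebra k K] (N : ℕ)
    (ω : Module.Basis (Fin N) ℤ (𝓞 K)) (S : Set (HeightOneSpectrum (𝓞 K))) (hS : S.Finite) :
    ∃ η : ℝ, 0 < η ∧ η < 1 ∧ ∃ C : ℝ, 0 ≤ C ∧ ∀ (D H : ℕ), 1 ≤ D → 1 ≤ H →
      (((FibO k ω a b S G F D H).ncard : ℕ) : ℝ) ≤
        C * (D : ℝ) ^ (2 * m) * (H : ℝ) ^ ((((n + 1) * N : ℕ) : ℝ) - η) := by
  obtain ⟨σ', hσ'⟩ := exists_ext (L := K) σ
  set ψ : 𝓞 k →+* 𝓞 K := algebraMap (𝓞 k) (𝓞 K) with hψ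
  have h1 : (toC σ').comp ψ = toC σ := by
    ext x
    have h2 : ((algebraMap (𝓞 k) (𝓞 K) x : 𝓞 K) : K) = algebraMap k K (x : k) := rfl
    show σ' ((algebraMap (𝓞 k) (𝓞 K) x : 𝓞 K) : K) = σ (x : k)
    rw [h2, ← hσ']
    rfl
  have h2 : (algebraMap (𝓞 K) K).comp ψ = toL k K := by
    ext x
    rfl
  obtain ⟨η, h0, h1', C, hC, h⟩ := smallOdd K N ω r 0 n q m a b hab ⊥ ⟨∅, by simp⟩ S hS
    (fun e => MvPolynomial.map ψ (G e)) d' (fun e => (hG e).map ψ)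
    (fun e => MvPolynomial.map ψ (F e)) d hd (fun e => (hF e).map ψ) σ' (by
      intro V u hV _
      rcases hns V hV with ⟨e, he⟩ | ⟨e, he⟩
      · left
        refine ⟨e, ?_⟩
        rw [spc_mapc, h1, spc_torus0]
        exact he
      · right
        refine ⟨e, fun g => ?_⟩
        rw [spc_mapc, h1, spc_torus0]
        exact he g)
  refine ⟨η, h0, h1', C, hC, fun D H hD hH => le_trans ?_ (h D H hD hH)⟩
  have hsub : FibO k ω a b S G F D H ⊆ FibOdd ω a b ⊥ S (fun e => MvPolynomial.map ψ (G e))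
      (fun e => MvPolynomial.map ψ (F e)) D H := by
    rintro c ⟨h3, V, hV, hG0, hF0⟩
    refine ⟨h3, V, fun _ => 1, hV, fun _ => Subgroup.one_mem _, fun e => ?_, fun i => ?_⟩
    · rw [vl_mapc, h2, vl_torus0 (toL k K)]
      exact hG0 e
    · rw [vl_mapc, h2, vl_torus0 (toL k K)]
      exact hF0 i
  exact_mod_cast Set.ncard_le_ncard hsub (box_card H _).1

/-! ### The discriminant of the points of a cover -/

/-- the logarithmic discriminant of `L` relative to `K` -/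
noncomputable def logDisc (K L : Type) [Field K] [NumberField K] [Field L] [NumberField L]
    [Algebra K L] : ℝ :=
  1 / (Module.finrank K L : ℝ) * Real.log |(discr L : ℝ)| - Real.log |(discr K : ℝ)|

theorem odd_le_disc {K L : Type} [Field K] [NumberField K] [Field L] [NumberField L]
    [Algebra K L] {x : K} (hx : x ≠ 0) {w : L} (hw : w ^ 2 = algebraMap K L x) :
    Real.log (oddNorm (∅ : Set (HeightOneSpectrum (𝓞 K))) x) ≤ 2 * logDisc K L := by
  have h1 := Pool.Agent.W240.PV.DISC.main K L x w hx hw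
  set f := Module.finrank K L with hf
  have hf0 : 0 < f := Module.finrank_pos
  have hfR : (0 : ℝ) < f := by exact_mod_cast hf0
  have hdK : (0 : ℝ) < ((discr K).natAbs : ℝ) := by
    exact_mod_cast Int.natAbs_pos.2 (discr_ne_zero K)
  have hdL : (0 : ℝ) < ((discr L).natAbs : ℝ) := by
    exact_mod_cast Int.natAbs_pos.2 (discr_ne_zero L)
  have hK : |(discr K : ℝ)| = ((discr K).natAbs : ℝ) := by
    rw [Nat.cast_natAbs, Int.cast_abs]
  have hL : |(discr L : ℝ)| = ((discr L).natAbs : ℝ) := by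
    rw [Nat.cast_natAbs, Int.cast_abs]
  unfold logDisc
  rw [hK, hL]
  rcases Nat.eq_zero_or_pos (oddNorm (∅ : Set (HeightOneSpectrum (𝓞 K))) x) with h0 | h0
  · have h3 : (((discr K).natAbs : ℝ)) ^ f ≤ ((discr L).natAbs : ℝ) := by
      have h4 := NumberField.natAbs_discr_eq_absNorm_differentIdeal_mul_natAbs_discr_pow K (𝓞 K) L
        (𝓞 L)
      have h5 : (discr K).natAbs ^ f ≤ (discr L).natAbs := by
        rw [h4]
        refine Nat.le_mul_of_pos_left _ (Nat.pos_of_ne_zero ?_)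
        intro h6
        rw [h6, zero_mul] at h4
        have := Int.natAbs_pos.2 (discr_ne_zero L)
        omega
      exact_mod_cast h5
    have h4 := Real.log_le_log (by positivity) h3
    rw [Real.log_pow] at h4
    rw [h0]
    simp only [Nat.cast_zero, Real.log_zero]
    have h5 : 1 / (f : ℝ) * ((f : ℝ) * Real.log ((discr K).natAbs : ℝ)) ≤
        1 / (f : ℝ) * Real.log ((discr L).natAbs : ℝ) :=
      mul_le_mul_of_nonneg_left h4 (by positivity)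
    rw [← mul_assoc, one_div_mul_cancel hfR.ne', one_mul] at h5
    linarith
  · have hoR : (0 : ℝ) < (oddNorm (∅ : Set (HeightOneSpectrum (𝓞 K))) x : ℝ) := by
      exact_mod_cast h0
    have h2 : ((oddNorm (∅ : Set (HeightOneSpectrum (𝓞 K))) x : ℝ)) ^ f *
        ((discr K).natAbs : ℝ) ^ (2 * f) ≤ ((discr L).natAbs : ℝ) ^ 2 := by exact_mod_cast h1
    have h3 := Real.log_le_log (by positivity) h2
    rw [Real.log_mul (by positivity) (by positivity), Real.log_pow, Real.log_pow,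
      Real.log_pow] at h3
    push_cast at h3
    have h4 : 1 / (f : ℝ) * ((f : ℝ) * Real.log (oddNorm (∅ : Set (HeightOneSpectrum (𝓞 K))) x) +
        2 * (f : ℝ) * Real.log ((discr K).natAbs : ℝ)) ≤
        1 / (f : ℝ) * (2 * Real.log ((discr L).natAbs : ℝ)) :=
      mul_le_mul_of_nonneg_left h3 (by positivity)
    have h5 : 1 / (f : ℝ) * ((f : ℝ) * Real.log (oddNorm (∅ : Set (HeightOneSpectrum (𝓞 K))) x) +
        2 * (f : ℝ) * Real.log ((discr K).natAbs : ℝ)) =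
        Real.log (oddNorm (∅ : Set (HeightOneSpectrum (𝓞 K))) x) +
          2 * Real.log ((discr K).natAbs : ℝ) := by
      field_simp
    rw [h5] at h4
    linarith

/-- the coefficient vectors of the `t ∈ (𝓞 K)ⁿ` in a box such that there are a `P ∈ A(K)` with
`G_e(P; t) = 0` for all `e`, a finite extension `L` of `K` and `w_i ∈ L` with `w_i² = F_i(P; t)`
for all `i`, such that `L` has logarithmic discriminant at most `β` relative to `K` -/
def FibD (k : Type) [Field k] {K : Type} [Field K] [NumberField K] [Algebra k K] {N : ℕ}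
    (ω : Module.Basis (Fin N) ℤ (𝓞 K)) {r n q m : ℕ} (a b : Fin r → ℤ)
    (G : Fin q → Pol0 (𝓞 k) r n) (F : Fin m → Pol0 (𝓞 k) r n) (β : ℝ) (H : ℕ) :
    Set (Fin n × Fin N → ℤ) :=
  {c | (∀ i, |c i| ≤ H) ∧ ∃ V : Fin r → Fin 3 → K, (∀ i, FD.OnE (a i) (b i) (V i)) ∧
    (∀ e, vl0 (toL k K) (G e) V (fun i => ((vec ω c i : 𝓞 K) : K)) = 0) ∧
      ∃ (L : Type) (_ : Field L) (_ : NumberField L) (_ : Algebra K L) (w : Fin m → L),
        (∀ i, w i ^ 2 = algebraMap K L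
          (vl0 (toL k K) (F i) V (fun i => ((vec ω c i : 𝓞 K) : K)))) ∧ logDisc K L ≤ β}

/-- choice of the constants -/
theorem const_aux {η C : ℝ} (hη : 0 < η) (hC : 0 ≤ C) (m M : ℕ) (c : ℝ) (hc : 0 ≤ c)
    (hcη : 2 * m * c ≤ η / 2) {H : ℕ} (hH : 1 ≤ H) {x : ℝ}
    (hx : x ≤ C * ((⌊(H : ℝ) ^ c⌋₊ : ℕ) : ℝ) ^ (2 * m) * (H : ℝ) ^ ((M : ℝ) - η)) :
    x ≤ C * (H : ℝ) ^ ((M : ℝ) - η / 2) := by
  have hHR : (1 : ℝ) ≤ H := by exact_mod_cast hH
  have hH0 : (0 : ℝ) < H := by linarith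
  refine hx.trans ?_
  rw [mul_assoc]
  refine mul_le_mul_of_nonneg_left ?_ hC
  have h1 : ((⌊(H : ℝ) ^ c⌋₊ : ℕ) : ℝ) ≤ (H : ℝ) ^ c := Nat.floor_le (by positivity)
  have h2 : ((⌊(H : ℝ) ^ c⌋₊ : ℕ) : ℝ) ^ (2 * m) ≤ (H : ℝ) ^ (2 * m * c) := by
    refine (pow_le_pow_left₀ (by positivity) h1 _).trans (le_of_eq ?_)
    rw [← Real.rpow_natCast, ← Real.rpow_mul hH0.le]
    congr 1
    push_cast
    ring
  have h3 : (H : ℝ) ^ (2 * m * c) ≤ (H : ℝ) ^ (η / 2) := Real.rpow_le_rpow_of_exponent_le hHR hcη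
  calc ((⌊(H : ℝ) ^ c⌋₊ : ℕ) : ℝ) ^ (2 * m) * (H : ℝ) ^ ((M : ℝ) - η)
      ≤ (H : ℝ) ^ (η / 2) * (H : ℝ) ^ ((M : ℝ) - η) :=
        mul_le_mul_of_nonneg_right (h2.trans h3) (by positivity)
    _ = (H : ℝ) ^ ((M : ℝ) - η / 2) := by
        rw [← Real.rpow_add hH0]
        congr 1
        ring

theorem discExt (k : Type) [Field k] [NumberField k] (r n q m : ℕ)
    (a b : Fin r → ℤ) (hab : ∀ i, a i * b i = 0 ∧ (a i ≠ 0 ∨ b i ≠ 0))
    (G : Fin q → Pol0 (𝓞 k) r (n + 1)) (d' : Fin q → Fin r → ℕ) (hG : ∀ e, MHomog (G e) (d' e))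
    (F : Fin m → Pol0 (𝓞 k) r (n + 1)) (d : Fin m → Fin r → ℕ)
    (hd : ∀ e i, Even (d e i)) (hF : ∀ e, MHomog (F e) (d e)) (σ : k →+* ℂ)
    (hns : ∀ (V : Fin r → Fin 3 → ℂ), (∀ i, FD.OnE (a i) (b i) (V i)) →
      (∃ e, spc0 (toC σ) (G e) V ≠ 0) ∨
        ∃ e, ∀ g : MvPolynomial (Fin (n + 1)) ℂ, spc0 (toC σ) (F e) V ≠ g ^ 2)
    (K : Type) [Field K] [NumberField K] [Algebra k K] (N : ℕ)
    (ω : Module.Basis (Fin N) ℤ (𝓞 K)) :
    ∃ c : ℝ, 0 < c ∧ ∃ η : ℝ, 0 < η ∧ ∃ C : ℝ, ∀ H : ℕ, 1 ≤ H →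
      (((FibD k ω a b G F (c * Real.log H) H).ncard : ℕ) : ℝ) ≤
        C * (H : ℝ) ^ ((((n + 1) * N : ℕ) : ℝ) - η) := by
  obtain ⟨η, hη0, hη1, C, hC, h⟩ := oddExt k r n q m a b hab G d' hG F d hd hF σ hns K N ω ∅
    Set.finite_empty
  set c : ℝ := η / (8 * (m + 1)) with hc
  have hm0 : (0 : ℝ) < 8 * ((m : ℝ) + 1) := by positivity
  have hc0 : 0 < c := div_pos hη0 hm0
  refine ⟨c, hc0, η / 2, by positivity, C, fun H hH => ?_⟩
  have hHR : (1 : ℝ) ≤ H := by exact_mod_cast hH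
  have hH0 : (0 : ℝ) < H := by linarith
  have hDR : (1 : ℝ) ≤ (H : ℝ) ^ (2 * c) := Real.one_le_rpow hHR (by linarith)
  have hD : 1 ≤ ⌊(H : ℝ) ^ (2 * c)⌋₊ := Nat.le_floor (by exact_mod_cast hDR)
  have hcη : 2 * (m : ℝ) * (2 * c) ≤ η / 2 := by
    have h1 : c * (8 * ((m : ℝ) + 1)) = η := div_mul_cancel₀ _ hm0.ne'
    nlinarith
  refine const_aux hη0 hC m ((n + 1) * N) (2 * c) (by linarith) hcη hH
    (le_trans ?_ (h _ H hD hH))
  have hsub : FibD k ω a b G F (c * Real.log H) H ⊆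
      FibO k ω a b ∅ G F ⌊(H : ℝ) ^ (2 * c)⌋₊ H := by
    rintro t ⟨ht, V, hV, hG0, L, _, _, _, w, hw, hL⟩
    refine ⟨ht, V, hV, hG0, fun i => ?_⟩
    by_cases h0 : vl0 (toL k K) (F i) V (fun i => ((vec ω t i : 𝓞 K) : K)) = 0
    · exact Or.inl h0
    · right
      have h1 := (odd_le_disc h0 (hw i)).trans (mul_le_mul_of_nonneg_left hL two_pos.le)
      refine Nat.le_floor ?_
      rcases Nat.eq_zero_or_pos (oddNorm (∅ : Set (HeightOneSpectrum (𝓞 K)))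
        (vl0 (toL k K) (F i) V (fun i => ((vec ω t i : 𝓞 K) : K)))) with h2 | h2
      · rw [h2, Nat.cast_zero]
        positivity
      · have h3 : (0 : ℝ) < (oddNorm (∅ : Set (HeightOneSpectrum (𝓞 K)))
          (vl0 (toL k K) (F i) V (fun i => ((vec ω t i : 𝓞 K) : K))) : ℝ) := by exact_mod_cast h2
        rw [← Real.log_le_log_iff h3 (by positivity), Real.log_rpow hH0]
        linarith
  exact_mod_cast Set.ncard_le_ncard hsub (box_card H _).1

end Pool.Agent.W659.PV
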