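import Pool.Agent.W659.PV.Cls
import Pool.Agent.W659.SA.DCM

/-! Project PV (helper659): twisted covers `δ_e w_e² = F_e(P, u; t)`, local conditions uniform in the
twists. -/

set_option autoImplicit false

namespace Pool.Agent.W659.PV

open MvPolynomial NumberField Pool.Agent.H901R3.MS WeierstrassCurve Pool.Agent.W659.SA

/-- the coefficient vectors of the `t ∈ (𝓞 K)ⁿ` in a box over which there is a point of the twisted
cover `δ_e w_e² = F_e(P, u; t)`, `e = 1, …, m`, with torus coordinates in `Γ` -/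
def FibT {K : Type} [Field K] [NumberField K] {N : ℕ} (ω : Module.Basis (Fin N) ℤ (𝓞 K))
    {r s n m : ℕ} (a b : Fin r → ℤ) (Γ : Subgroup Kˣ) (F : Fin m → Pol (𝓞 K) r s n)
    (δ : Fin m → K) (H : ℕ) : Set (Fin n × Fin N → ℤ) :=
  {c | (∀ i, |c i| ≤ H) ∧ ∃ (V : Fin r → Fin 3 → K) (u : Fin s → Kˣ) (w : Fin m → K),
    (∀ i, FD.OnE (a i) (b i) (V i)) ∧ (∀ l, u l ∈ Γ) ∧
      ∀ e, δ e * w e ^ 2 = vl (algebraMap (𝓞 K) K) (F e) V (fun l => ((u l : Kˣ) : K))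
        (fun i => ((vec ω c i : 𝓞 K) : K))}

/-- the value of a square in a place -/
theorem sq_case {K k : Type} [Field K] [Field k] (v : Place K k) (δ : K) :
    ∃ ε : k, ε ≠ 0 ∧ ∀ x w : K, x = δ * w ^ 2 → x ∈ v.A →
      ∃ z : k, z ^ 2 = ε⁻¹ * v.r x := by
  by_cases h : ∃ s : K, s ≠ 0 ∧ δ * s ^ 2 ∈ v.A ∧ v.r (δ * s ^ 2) ≠ 0
  · obtain ⟨s, hs0, hsA, hsr⟩ := h
    refine ⟨v.r (δ * s ^ 2), hsr, ?_⟩
    intro x w hx hxA
    have hinv : (δ * s ^ 2)⁻¹ ∈ v.A := by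
      apply v.inv_of_ne ⟨δ * s ^ 2, hsA⟩
      rw [v.r_of hsA] at hsr
      exact hsr
    have hne : δ * s ^ 2 ≠ 0 := by
      intro h0
      rw [h0] at hsr
      exact hsr v.r_zero
    have h1 : (w / s) ^ 2 = (δ * s ^ 2)⁻¹ * x := by
      rw [hx, div_pow]
      field_simp
      have hδ : δ ≠ 0 := left_ne_zero_of_mul hne
      field_simp
    have h2 : (w / s) ^ 2 ∈ v.A := by
      rw [h1]
      exact v.A.mul_mem hinv hxA
    have h3 := v.mem_of_pow_mem (by norm_num) h2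
    refine ⟨v.r (w / s), ?_⟩
    rw [← v.r_pow h3, h1, v.r_mul hinv hxA]
    congr 1
    have h4 : v.r ((δ * s ^ 2)⁻¹ * (δ * s ^ 2)) = 1 := by
      rw [inv_mul_cancel₀ hne, v.r_one]
    rw [v.r_mul hinv hsA] at h4
    exact eq_inv_of_mul_eq_one_left h4
  · push Not at h
    refine ⟨1, one_ne_zero, ?_⟩
    intro x w hx hxA
    by_cases hw : w = 0
    · refine ⟨0, ?_⟩
      rw [hx, hw]
      simp
    · have h1 := h w hw (by rw [← hx]; exact hxA)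
      rw [← hx] at h1
      exact ⟨0, by rw [h1]; simp⟩

/-- local conditions, uniform in the twists -/
def LocT : Prop := ∀ (K : Type) [Field K] [NumberField K] (N : ℕ)
  (ω : Module.Basis (Fin N) ℤ (𝓞 K)) (r s n m : ℕ), 1 ≤ n → ∀ (a b : Fin r → ℤ),
  (∀ i, a i * b i = 0 ∧ (a i ≠ 0 ∨ b i ≠ 0)) → ∀ Γ : Subgroup Kˣ, Γ.FG →
  ∀ (F : Fin m → Pol (𝓞 K) r s n) (d : Fin m → Fin r → ℕ), (∀ e i, Even (d e i)) →
  (∀ e, MHomog (F e) (d e)) → ∀ (σ : K →+* ℂ),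
  (∀ (V : Fin r → Fin 3 → ℂ) (u : Fin s → ℂ), (∀ i, FD.OnE (a i) (b i) (V i)) → (∀ l, u l ≠ 0) →
    ∃ e, ∀ g : MvPolynomial (Fin n) ℂ, spc (toC σ) (F e) V u ≠ g ^ 2) →
  ∃ p₀ R : ℕ, ∀ (T : Finset ℕ) (L : ℕ), GoodT K p₀ T L → ∃ (Q : Type) (_ : Fintype Q),
    Fintype.card Q ≤ L ^ R ∧ ∀ δ : Fin m → K, ∃ G : Q → (p : ℕ) → Set (Fin n × Fin N → ZMod p),
      (∀ x, ∀ p ∈ T, (((G x p).ncard : ℕ) : ℝ) ≤
        2 / 3 * (p : ℝ) ^ Fintype.card (Fin n × Fin N)) ∧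
      ∀ H : ℕ, FibT ω a b Γ F δ H ⊆ ⋃ x : Q, {c : Fin n × Fin N → ℤ | (∀ i, |c i| ≤ H) ∧
        ∀ p ∈ T, (fun s => (c s : ZMod p)) ∈ G x p}

theorem locT_aux (hCL : ClassesV) (hPLQ : FK.S_PLQ) (hLINE : FK.S_LINEK) (hULT : ULTM.S_ULTM)
    (hPRE : FK.S_PRE) : LocT := by
  classical
  intro K _ _ N ω r s n m hn a b hab Γ hΓ F d hd hF σ hns
  obtain ⟨p₀, R, hcl⟩ := hCL K r s a b hab Γ hΓ
  obtain ⟨p₁, hp₁⟩ := hULT K r s n m a b F σ hns
  obtain ⟨q₁, hq₁⟩ := hLINE n (∑ e, (F e).totalDegree) hn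
  refine ⟨p₀ + p₁ + q₁ + 5, R, ?_⟩
  intro T L hT
  obtain ⟨hL, hT⟩ := hT
  have hTp : ∀ p ∈ T, p.Prime := fun p hp => (hT p hp).1
  obtain ⟨Q, hQi, hQ, cls, hcls⟩ := hcl L hL
  choose m' hm using hd
  refine ⟨Q, hQi, hQ, ?_⟩
  intro δ
  -- the local data
  have key : ∀ p : ℕ, p ∈ T → ∃ G : Q → Set (Fin n × Fin N → ZMod p),
      (∀ x, (((G x).ncard : ℕ) : ℝ) ≤ 2 / 3 * (p : ℝ) ^ Fintype.card (Fin n × Fin N)) ∧
      ∀ (V : Fin r → Fin 3 → K) (u : Fin s → Kˣ) (w : Fin m → K) (c : Fin n × Fin N → ℤ),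
        (∀ i, FD.OnE (a i) (b i) (V i)) → (∀ l, u l ∈ Γ) →
        (∀ e, δ e * w e ^ 2 = vl (algebraMap (𝓞 K) K) (F e) V (fun l => ((u l : Kˣ) : K))
          (fun i => ((vec ω c i : 𝓞 K) : K))) → (fun s => (c s : ZMod p)) ∈ G (cls V u) := by
    intro p hp
    obtain ⟨hpp, hp0, h12, ⟨k, _, _, hcard, φ, hφ⟩, hL1, hL2⟩ := hT p hp
    have : Fact p.Prime := ⟨hpp⟩
    have : CharP k p := charP_of_card hpp hcard
    have hpcard : p ≤ Fintype.card k := by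
      rcases hcard with h | h
      · exact h.ge
      · rw [h]; exact Nat.le_self_pow two_ne_zero p
    have h2k : (2 : k) ≠ 0 := by
      intro h
      have h5 : ((2 : ℕ) : k) = 0 := by exact_mod_cast h
      rw [CharP.cast_eq_zero_iff k p] at h5
      have := Nat.le_of_dvd (by norm_num) h5
      omega
    obtain ⟨v, hv⟩ := hPLQ K k φ hφ
    obtain ⟨V', u', hVu⟩ := hcls p hpp (by omega) h12 hL1 hL2 k hcard φ hφ v hv
    choose ε hε0 hε using fun e => sq_case v (δ e)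
    -- for a class without points take the empty set
    have hG : ∀ x : Q, ∃ G : Set (Fin n × Fin N → ZMod p),
        (((G).ncard : ℕ) : ℝ) ≤ 2 / 3 * (p : ℝ) ^ Fintype.card (Fin n × Fin N) ∧
        (OnG a b (V' x) (u' x) → ∀ c : Fin n × Fin N → ℤ,
          (∀ e, (fun i => φ (vec ω c i)) ∈
            FD.Sq (C (ε e)⁻¹ * spc φ (F e) (V' x) (u' x))) →
          (fun s => (c s : ZMod p)) ∈ G) := by
      intro x
      by_cases hx : OnG a b (V' x) (u' x)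
      · obtain ⟨e, he⟩ := hp₁ p hpp (by omega) k φ _ _ hx.1 hx.2
        have hΩ : (((FD.Sq (C (ε e)⁻¹ * spc φ (F e) (V' x) (u' x))).ncard : ℕ) : ℝ) ≤
            2 / 3 * (Fintype.card k : ℝ) ^ n := by
          refine hq₁ k h2k (by omega) _ ?_ ?_
          · refine (totalDegree_mul _ _).trans ?_
            rw [totalDegree_C, zero_add]
            exact (spc_degree φ (F e) _ _).trans
              (Finset.single_le_sum (f := fun e => (F e).totalDegree) (fun _ _ => Nat.zero_le _)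
                (Finset.mem_univ e))
          · intro c g hcg
            apply he (ε e * c) g
            have h6 : (C (ε e) : MvPolynomial (Fin n) k) * C (ε e)⁻¹ = 1 := by
              rw [← C_mul, mul_inv_cancel₀ (hε0 e), C_1]
            calc spc φ (F e) (V' x) (u' x)
                = C (ε e) * (C (ε e)⁻¹ * spc φ (F e) (V' x) (u' x)) := by
                  rw [← mul_assoc, h6, one_mul]
              _ = C (ε e * c) * g ^ 2 := by rw [hcg, ← mul_assoc, ← C_mul]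
        obtain ⟨G, hG1, hG2⟩ := hPRE K n N ω p k hcard φ hφ
          (FD.Sq (C (ε e)⁻¹ * spc φ (F e) (V' x) (u' x))) (2 / 3) hΩ
        exact ⟨G, hG1, fun _ c hc => hG2 c (hc e)⟩
      · exact ⟨∅, by rw [Set.ncard_empty, Nat.cast_zero]; positivity, fun h => absurd h hx⟩
    choose G hG1 hG2 using hG
    refine ⟨G, hG1, ?_⟩
    intro V u w c hV hu hw
    obtain ⟨hO, z, hz, hval⟩ := hVu V u hV hu
    apply hG2 _ hO
    intro e
    obtain ⟨h4, h5⟩ := hval n (F e) (d e) (hF e) (vec ω c)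
    have hsq : (∏ i, z i ^ d e i) *
        vl (algebraMap (𝓞 K) K) (F e) V (fun l => ((u l : Kˣ) : K))
          (fun i => ((vec ω c i : 𝓞 K) : K)) = δ e * ((∏ i, z i ^ m' e i) * w e) ^ 2 := by
      rw [mul_pow, ← hw e, ← Finset.prod_pow]
      have h6 : ∏ i, z i ^ d e i = ∏ i, (z i ^ m' e i) ^ 2 := by
        refine Finset.prod_congr rfl fun i _ => ?_
        rw [hm e i, ← pow_mul, mul_two]
      rw [h6]
      ring
    obtain ⟨y, hy⟩ := hε e _ _ hsq h4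
    refine ⟨y, ?_⟩
    rw [hy, h5, vl_eq, map_mul, eval_C]
  choose G0 hG1 hG2 using key
  let G : Q → (p : ℕ) → Set (Fin n × Fin N → ZMod p) := fun x p => {c | ∃ hp : p ∈ T, c ∈ G0 p hp x}
  have hGeq : ∀ x (p : ℕ) (hp : p ∈ T), G x p = G0 p hp x := by
    intro x p hp
    ext c
    exact ⟨fun ⟨_, h⟩ => h, fun h => ⟨hp, h⟩⟩
  refine ⟨G, ?_, ?_⟩
  · intro x p hp
    rw [hGeq x p hp]
    exact hG1 p hp x
  · rintro H c ⟨hc1, V, u, w, hV, hu, hw⟩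
    rw [Set.mem_iUnion]
    refine ⟨cls V u, hc1, ?_⟩
    intro p hp
    rw [hGeq _ p hp]
    exact hG2 p hp V u w c hV hu hw

theorem locT : LocT :=
  locT_aux (classesV Pool.Agent.W605.FK.main Pool.Agent.W605.SA.UR.main
    (t_R6 t_R1 t_R2 t_R3 t_R4 t_R5) (t_R7 t_R1) t_PTSK t_M1K t_M2 Pool.Agent.H35R6.DCCNT.cnt)
    Pool.Agent.W496.FK.PLQ.main Pool.Agent.W462.FK.main
    (ULTM.main Pool.Agent.W578.SA.TRK.main) Pool.Agent.W346.FK.main

end Pool.Agent.W659.PV
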