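import Pool.Agent.W659.PV.Pow
import Pool.Agent.W659.SA.Ext
import Pool.Agent.W688.PV.MOMK
import Pool.Agent.W240.PV.DISC
import Pool.Agent.W591.PV.CLS2

/-! Project PV (helper659): few `t` have a point over them at which all the `F_i` have small odd
part. -/

set_option autoImplicit false

namespace Pool.Agent.W659.PV

open MvPolynomial NumberField IsDedekindDomain Pool.Agent.H901R3.MS WeierstrassCurve
  Pool.Agent.W659.SA

/-- the coefficient vectors of the `t` in a box over which there is a point `(P, u, t)`,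
`P ∈ A(K)`, `u_l ∈ Γ`, with `G_e(P, u; t) = 0` for all `e` at which the odd parts outside `S` of all
the nonzero `F_i(P, u; t)` have norm at most `D` -/
def FibOdd {K : Type} [Field K] [NumberField K] {N : ℕ} (ω : Module.Basis (Fin N) ℤ (𝓞 K))
    {r s n q m : ℕ} (a b : Fin r → ℤ) (Γ : Subgroup Kˣ) (S : Set (HeightOneSpectrum (𝓞 K)))
    (G : Fin q → Pol (𝓞 K) r s n) (F : Fin m → Pol (𝓞 K) r s n) (D H : ℕ) :
    Set (Fin n × Fin N → ℤ) :=
  {c | (∀ i, |c i| ≤ H) ∧ ∃ (V : Fin r → Fin 3 → K) (u : Fin s → Kˣ),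
    (∀ i, FD.OnE (a i) (b i) (V i)) ∧ (∀ l, u l ∈ Γ) ∧
      (∀ e, vl (algebraMap (𝓞 K) K) (G e) V (fun l => ((u l : Kˣ) : K))
        (fun i => ((vec ω c i : 𝓞 K) : K)) = 0) ∧
      ∀ i, vl (algebraMap (𝓞 K) K) (F i) V (fun l => ((u l : Kˣ) : K))
          (fun i => ((vec ω c i : 𝓞 K) : K)) = 0 ∨
        oddNorm S (vl (algebraMap (𝓞 K) K) (F i) V (fun l => ((u l : Kˣ) : K))
          (fun i => ((vec ω c i : 𝓞 K) : K))) ≤ D}

def SmallOdd : Prop := ∀ (K : Type) [Field K] [NumberField K] (N : ℕ)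
  (ω : Module.Basis (Fin N) ℤ (𝓞 K)) (r s n q m : ℕ) (a b : Fin r → ℤ),
  (∀ i, a i * b i = 0 ∧ (a i ≠ 0 ∨ b i ≠ 0)) → ∀ Γ : Subgroup Kˣ, Γ.FG →
  ∀ (S : Set (HeightOneSpectrum (𝓞 K))), S.Finite →
  ∀ (G : Fin q → Pol (𝓞 K) r s (n + 1)) (d' : Fin q → Fin r → ℕ), (∀ e, MHomog (G e) (d' e)) →
  ∀ (F : Fin m → Pol (𝓞 K) r s (n + 1)) (d : Fin m → Fin r → ℕ), (∀ e i, Even (d e i)) →
  (∀ e, MHomog (F e) (d e)) → ∀ (σ : K →+* ℂ),
  (∀ (V : Fin r → Fin 3 → ℂ) (u : Fin s → ℂ), (∀ i, FD.OnE (a i) (b i) (V i)) → (∀ l, u l ≠ 0) →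
    (∃ e, spc (toC σ) (G e) V u ≠ 0) ∨
      ∃ e, ∀ g : MvPolynomial (Fin (n + 1)) ℂ, spc (toC σ) (F e) V u ≠ g ^ 2) →
  ∃ η : ℝ, 0 < η ∧ η < 1 ∧ ∃ C : ℝ, 0 ≤ C ∧ ∀ (D H : ℕ), 1 ≤ D → 1 ≤ H →
    (((FibOdd ω a b Γ S G F D H).ncard : ℕ) : ℝ) ≤
      C * (D : ℝ) ^ (2 * m) * (H : ℝ) ^ ((((n + 1) * N : ℕ) : ℝ) - η)

theorem smallOdd_aux (hT : MainT) (hCLS : S_CLS2) : SmallOdd := by
  classical
  intro K _ _ N ω r s n q m a b hab Γ hΓ S hS G d' hG F d hd hF σ hns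
  set G' : Fin q → Pol (𝓞 K) r s (n + 1) := fun e => X (Sum.inr (Sum.inr 0)) * (G e * G e) with hG'
  obtain ⟨η, hη0, hη1, C, hC⟩ := hT K N ω r s (n + 1) (q + m) (by omega) a b hab Γ hΓ
    (Fin.append G' F)
    (Fin.append (fun e i => 0 + (d' e i + d' e i)) d)
    (fun e => by
      refine Fin.addCases (fun e => ?_) (fun e => ?_) e
      · intro i
        rw [Fin.append_left]
        exact ⟨d' e i, by omega⟩
      · intro i
        rw [Fin.append_right]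
        exact hd e i)
    (fun e => by
      refine Fin.addCases (fun e => ?_) (fun e => ?_) e
      · rw [Fin.append_left, Fin.append_left]
        exact (MHomog.var 0).mul ((hG e).mul (hG e))
      · rw [Fin.append_right, Fin.append_right]
        exact hF e) σ (by
      intro V u hV hu
      rcases hns V u hV hu with ⟨e, he⟩ | ⟨e, he⟩
      · refine ⟨Fin.castAdd m e, fun g => ?_⟩
        rw [Fin.append_left, hG', spc_mul, spc_mul, spc_var]
        exact odd_ne 0 _ g he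
      · refine ⟨Fin.natAdd q e, fun g => ?_⟩
        rw [Fin.append_right]
        exact he g)
  obtain ⟨C₁, hC₁⟩ := hCLS K S hS
  refine ⟨η, hη0, hη1, ((C₁ : ℝ) + 1) ^ m * |C|, by positivity, ?_⟩
  intro D H hD hH
  obtain ⟨Δ, hΔ, hΔr⟩ := hC₁ D hD
  set Δ' : Finset K := insert 1 (Δ.image (fun δ : Kˣ => (δ : K))) with hΔ'
  have hΔc : (Δ'.card : ℝ) ≤ ((C₁ : ℝ) + 1) * (D : ℝ) ^ 2 := by
    have h1 : Δ'.card ≤ C₁ * D ^ 2 + 1 := by
      refine (Finset.card_insert_le _ _).trans ?_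
      exact Nat.succ_le_succ ((Finset.card_image_le).trans hΔ)
    have h2 : (Δ'.card : ℝ) ≤ (C₁ : ℝ) * (D : ℝ) ^ 2 + 1 := by exact_mod_cast h1
    have h3 : (1 : ℝ) ≤ (D : ℝ) ^ 2 := one_le_pow₀ (by exact_mod_cast hD)
    nlinarith
  set E : Finset (Fin m → K) := Fintype.piFinset fun _ => Δ' with hE
  have hEc : (E.card : ℝ) ≤ ((C₁ : ℝ) + 1) ^ m * (D : ℝ) ^ (2 * m) := by
    rw [hE, Fintype.card_piFinset_const]
    push_cast
    calc (Δ'.card : ℝ) ^ m ≤ (((C₁ : ℝ) + 1) * (D : ℝ) ^ 2) ^ m :=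
          pow_le_pow_left₀ (by positivity) hΔc m
      _ = ((C₁ : ℝ) + 1) ^ m * (D : ℝ) ^ (2 * m) := by rw [mul_pow, ← pow_mul]
  have hsub : FibOdd ω a b Γ S G F D H ⊆ ⋃ δ ∈ E, FibT ω a b Γ (Fin.append G' F)
      (Fin.append (fun _ : Fin q => (1 : K)) δ) H := by
    rintro c ⟨hc, V, u, hV, hu, hG0, hF0⟩
    have h1 : ∀ i, ∃ δ ∈ Δ', ∃ w : K, δ * w ^ 2 = vl (algebraMap (𝓞 K) K) (F i) V
        (fun l => ((u l : Kˣ) : K)) (fun i => ((vec ω c i : 𝓞 K) : K)) := by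
      intro i
      by_cases h0 : vl (algebraMap (𝓞 K) K) (F i) V
        (fun l => ((u l : Kˣ) : K)) (fun i => ((vec ω c i : 𝓞 K) : K)) = 0
      · exact ⟨1, Finset.mem_insert_self _ _, 0, by rw [h0]; simp⟩
      · rcases hF0 i with h | h
        · exact absurd h h0
        · obtain ⟨δ, hδ, w, _, hw⟩ := hΔr _ h0 h
          exact ⟨(δ : K), Finset.mem_insert_of_mem (Finset.mem_image_of_mem _ hδ), w, hw.symm⟩
    choose δ hδ w hw using h1
    rw [Set.mem_iUnion₂]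
    refine ⟨δ, ?_, hc, V, u, Fin.append (fun _ => 0) w, hV, hu, ?_⟩
    · rw [hE, Fintype.mem_piFinset]
      exact hδ
    · intro e
      refine Fin.addCases (fun e => ?_) (fun e => ?_) e
      · rw [Fin.append_left, Fin.append_left, Fin.append_left, hG', vl_mul, vl_mul, hG0 e]
        simp
      · rw [Fin.append_right, Fin.append_right, Fin.append_right]
        exact hw e
  have hfinT : ∀ δ : Fin m → K, (FibT ω a b Γ (Fin.append G' F)
      (Fin.append (fun _ : Fin q => (1 : K)) δ) H).Finite := fun δ => (box_card H _).1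
  have h1 : (FibOdd ω a b Γ S G F D H).ncard ≤ ∑ δ ∈ E, (FibT ω a b Γ (Fin.append G' F)
      (Fin.append (fun _ : Fin q => (1 : K)) δ) H).ncard := by
    refine (Set.ncard_le_ncard hsub ?_).trans (Finset.set_ncard_biUnion_le _ _)
    exact E.finite_toSet.biUnion fun δ _ => hfinT δ
  have hHR : (0 : ℝ) ≤ (H : ℝ) ^ ((((n + 1) * N : ℕ) : ℝ) - η) := by positivity
  calc (((FibOdd ω a b Γ S G F D H).ncard : ℕ) : ℝ)
      ≤ ((∑ δ ∈ E, (FibT ω a b Γ (Fin.append G' F)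
        (Fin.append (fun _ : Fin q => (1 : K)) δ) H).ncard : ℕ) : ℝ) := by exact_mod_cast h1
    _ = ∑ δ ∈ E, (((FibT ω a b Γ (Fin.append G' F)
        (Fin.append (fun _ : Fin q => (1 : K)) δ) H).ncard : ℕ) : ℝ) := by push_cast; rfl
    _ ≤ ∑ _δ ∈ E, |C| * (H : ℝ) ^ ((((n + 1) * N : ℕ) : ℝ) - η) := by
        refine Finset.sum_le_sum fun δ _ => (hC _ H hH).trans ?_
        exact mul_le_mul_of_nonneg_right (le_abs_self C) hHR
    _ = (E.card : ℝ) * (|C| * (H : ℝ) ^ ((((n + 1) * N : ℕ) : ℝ) - η)) := by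
        rw [Finset.sum_const, nsmul_eq_mul]
    _ ≤ (((C₁ : ℝ) + 1) ^ m * (D : ℝ) ^ (2 * m)) *
        (|C| * (H : ℝ) ^ ((((n + 1) * N : ℕ) : ℝ) - η)) :=
        mul_le_mul_of_nonneg_right hEc (by positivity)
    _ = _ := by ring

end Pool.Agent.W659.PV
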