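import Pool.Agent.W659.PV.Loc
import Pool.Agent.W659.PV.Stm
import Pool.Agent.H582R4.DD_MOM

/-! Project PV (helper659): power saving, uniform in the twists. -/

set_option autoImplicit false

namespace Pool.Agent.W659.PV

open MvPolynomial NumberField Pool.Agent.H901R3.MS WeierstrassCurve Pool.Agent.W659.SA

/-- good primes up to `y` -/
def PrimesY : Prop := ∀ (K : Type) [Field K] [NumberField K] (p₀ : ℕ),
  ∃ τ : ℝ, 0 < τ ∧ τ < 1 ∧ ∃ κ : ℝ, 0 < κ ∧ ∃ Y : ℕ, ∀ y : ℕ, Y ≤ y → ∃ (T : Finset ℕ) (L : ℕ),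
    GoodT K p₀ T L ∧ (∀ p ∈ T, p ≤ y) ∧ κ * (y / Real.log y) ≤ (T.card : ℝ) ∧ 1 ≤ L ∧
      (L : ℝ) ≤ 2 * ((y : ℝ) + 1) ^ (2 * ⌊(y : ℝ) ^ τ⌋₊)

theorem primesY_aux (hHOM : FK.S_HOM) (hSP : S_SP2) (hLY : LY) : PrimesY := by
  classical
  intro K _ _ p₀
  obtain ⟨M, _, _, hM1, hM3, hM⟩ := hHOM K
  obtain ⟨τ, hτ0, hτ1, κ, hκ, Y, hY⟩ := hSP M True True (fun _ => hM1) (fun _ => hM3)
  set M' : ℕ := p₀ + 2 with hM'
  set N' : ℕ := ⌈(4 * (M' : ℝ) / κ) ^ 2⌉₊ with hN'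
  refine ⟨τ, hτ0, hτ1, κ / 2, by positivity, max Y (max 3 N'), ?_⟩
  intro y hy
  have hyY : Y ≤ y := (le_max_left _ _).trans hy
  have hy3 : 3 ≤ y := ((le_max_left _ _).trans (le_max_right _ _)).trans hy
  have hyN : N' ≤ y := ((le_max_right _ _).trans (le_max_right _ _)).trans hy
  set T : Finset ℕ := ((DegP M True True y \ RoughP τ y) \ RoughM τ y).filter (fun p => M' ≤ p)
    with hT
  have hmemT : ∀ p ∈ T, (1 ≤ p ∧ p ≤ y) ∧ (p.Prime ∧ CondP True True p ∧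
      Nonempty (𝓞 M →+* ZMod p)) ∧
      (∀ q : ℕ, q.Prime → q ∣ p + 1 → q ≤ ⌊(y : ℝ) ^ τ⌋₊) ∧
      (∀ q : ℕ, q.Prime → q ∣ p - 1 → q ≤ ⌊(y : ℝ) ^ τ⌋₊) ∧ M' ≤ p := by
    intro p hp
    rw [hT, Finset.mem_filter, Finset.mem_sdiff, Finset.mem_sdiff] at hp
    obtain ⟨⟨⟨h1, h3⟩, h4⟩, h2⟩ := hp
    unfold DegP at h1
    rw [Finset.mem_filter, Finset.mem_Icc] at h1
    refine ⟨h1.1, h1.2, ?_, ?_, h2⟩
    · intro q hq hqp
      by_contra hcon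
      apply h3
      unfold RoughP
      rw [Finset.mem_filter, Finset.mem_Icc]
      exact ⟨h1.1, h1.2.1, q, hq, hqp, not_le.1 hcon⟩
    · intro q hq hqp
      by_contra hcon
      apply h4
      unfold RoughM
      rw [Finset.mem_filter, Finset.mem_Icc]
      exact ⟨h1.1, h1.2.1, q, hq, hqp, not_le.1 hcon⟩
  have hcard : ((((DegP M True True y \ RoughP τ y) \ RoughM τ y)).card : ℝ) ≤
      (T.card : ℝ) + M' := by
    have h1 : ((DegP M True True y \ RoughP τ y) \ RoughM τ y) ⊆ T ∪ Finset.range M' := by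
      intro p hp
      rw [Finset.mem_union]
      by_cases hpM : M' ≤ p
      · left
        rw [hT, Finset.mem_filter]
        exact ⟨hp, hpM⟩
      · right
        rw [Finset.mem_range]
        omega
    have h2 := (Finset.card_le_card h1).trans (Finset.card_union_le _ _)
    rw [Finset.card_range] at h2
    exact_mod_cast h2
  have hκy := hY y hyY
  have hyr3 : (3 : ℝ) ≤ (y : ℝ) := by exact_mod_cast hy3
  have hMy : (M' : ℝ) ≤ κ / 2 * (y / Real.log y) := by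
    have h1 := W_Z1K.div_log_ge hyr3
    have h2 : 4 * (M' : ℝ) / κ ≤ Real.sqrt y := by
      apply Real.le_sqrt_of_sq_le
      have h3 : (4 * (M' : ℝ) / κ) ^ 2 ≤ (N' : ℝ) := Nat.le_ceil _
      have h4 : (N' : ℝ) ≤ (y : ℝ) := by exact_mod_cast hyN
      exact h3.trans h4
    have h5 : 4 * (M' : ℝ) ≤ Real.sqrt y * κ := by
      rwa [div_le_iff₀ hκ] at h2
    have h6 : κ / 2 * (Real.sqrt y / 2) ≤ κ / 2 * (y / Real.log y) :=
      mul_le_mul_of_nonneg_left h1 (by positivity)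
    nlinarith
  have hTcard : κ / 2 * (y / Real.log y) ≤ (T.card : ℝ) := by
    have h1 : κ * (y / Real.log y) = κ / 2 * (y / Real.log y) + κ / 2 * (y / Real.log y) := by ring
    linarith
  obtain ⟨L, hL1, hL2, hL3⟩ := hLY y ⌊(y : ℝ) ^ τ⌋₊
  have hL0 : 1 ≤ 2 * L ^ 2 := by
    have := Nat.pow_pos (n := 2) hL1
    omega
  refine ⟨T, 2 * L ^ 2, ⟨hL0, ?_⟩, fun p hp => (hmemT p hp).1.2, hTcard, hL0, ?_⟩
  · intro p hpT
    obtain ⟨h1, ⟨h2, h3, h6⟩, h4, h4', h5⟩ := hmemT p hpT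
    have : Fact p.Prime := ⟨h2⟩
    have h7 := h3.1 trivial
    have h8 := h3.2 trivial
    have h9 : p + 1 ∣ L := hL3 (p + 1) (by omega) (by omega) h4
    have h10 : p - 1 ∣ L := hL3 (p - 1) (by omega) (by omega) h4'
    refine ⟨h2, by omega, by omega, hM p h7 h6, ?_, ?_⟩
    · exact Nat.mul_dvd_mul_left 2 (h9.trans (dvd_pow_self _ two_ne_zero))
    · have h11 : p ^ 2 - 1 = (p + 1) * (p - 1) := by
        have := Nat.sq_sub_sq p 1
        simpa using this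
      rw [h11, pow_two]
      exact (mul_dvd_mul h9 h10).trans (dvd_mul_left _ _)
  · have h1 : (L : ℝ) ≤ ((y : ℝ) + 1) ^ ⌊(y : ℝ) ^ τ⌋₊ := by exact_mod_cast hL2
    rw [mul_comm 2 ⌊(y : ℝ) ^ τ⌋₊, pow_mul]
    push_cast
    have h3 : (0 : ℝ) ≤ (L : ℝ) := by positivity
    have h4 := pow_le_pow_left₀ h3 h1 2
    linarith

theorem primesY : PrimesY := primesY_aux _root_.W580.FK.main sp2 t_LY

/-- power saving, uniform in the twists -/
def MainT : Prop := ∀ (K : Type) [Field K] [NumberField K] (N : ℕ)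
  (ω : Module.Basis (Fin N) ℤ (𝓞 K)) (r s n m : ℕ), 1 ≤ n → ∀ (a b : Fin r → ℤ),
  (∀ i, a i * b i = 0 ∧ (a i ≠ 0 ∨ b i ≠ 0)) → ∀ Γ : Subgroup Kˣ, Γ.FG →
  ∀ (F : Fin m → Pol (𝓞 K) r s n) (d : Fin m → Fin r → ℕ), (∀ e i, Even (d e i)) →
  (∀ e, MHomog (F e) (d e)) → ∀ (σ : K →+* ℂ),
  (∀ (V : Fin r → Fin 3 → ℂ) (u : Fin s → ℂ), (∀ i, FD.OnE (a i) (b i) (V i)) → (∀ l, u l ≠ 0) →
    ∃ e, ∀ g : MvPolynomial (Fin n) ℂ, spc (toC σ) (F e) V u ≠ g ^ 2) →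
  ∃ η : ℝ, 0 < η ∧ η < 1 ∧ ∃ C : ℝ, ∀ (δ : Fin m → K) (H : ℕ), 1 ≤ H →
    (((FibT ω a b Γ F δ H).ncard : ℕ) : ℝ) ≤ C * (H : ℝ) ^ (((n * N : ℕ) : ℝ) - η)

theorem box_card {ι : Type} [Fintype ι] (H : ℕ) (P : (ι → ℤ) → Prop) :
    ({c : ι → ℤ | (∀ i, |c i| ≤ (H : ℤ)) ∧ P c}.Finite) ∧
      ((({c : ι → ℤ | (∀ i, |c i| ≤ (H : ℤ)) ∧ P c}.ncard : ℕ) : ℝ) ≤
        (2 * (H : ℝ) + 1) ^ Fintype.card ι) := by
  classical
  have h1 : {c : ι → ℤ | (∀ i, |c i| ≤ (H : ℤ)) ∧ P c} ⊆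
      ((Fintype.piFinset fun _ : ι => Finset.Icc (-(H : ℤ)) H : Finset (ι → ℤ)) : Set (ι → ℤ)) := by
    rintro c ⟨hc, _⟩
    rw [Finset.mem_coe, Fintype.mem_piFinset]
    intro i
    rw [Finset.mem_Icc]
    exact abs_le.1 (hc i)
  refine ⟨(Finset.finite_toSet _).subset h1, ?_⟩
  have h2 := Set.ncard_le_ncard h1 (Finset.finite_toSet _)
  rw [Set.ncard_coe_finset, Fintype.card_piFinset] at h2
  simp only [Int.card_Icc, Finset.prod_const, Finset.card_univ] at h2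
  have h3 : ((H : ℤ) + 1 - -(H : ℤ)).toNat = 2 * H + 1 := by omega
  rw [h3] at h2
  exact_mod_cast h2

theorem mainT_aux (hL : LocT) (hP : PrimesY) (hMOM : MOM) (hMOMK : S_MOMK) (hPARK : S_PARK) :
    MainT := by
  classical
  intro K _ _ N ω r s n m hn a b hab Γ hΓ F d hd hF σ hns
  have hN : 0 < N := by
    rcases Nat.eq_zero_or_pos N with h | h
    · subst h
      have h1 : Subsingleton (𝓞 K) := ω.repr.toEquiv.subsingleton
      exact absurd (Subsingleton.elim (0 : 𝓞 K) 1) zero_ne_one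
    · exact h
  have : Nonempty (Fin n × Fin N) := ⟨⟨0, hn⟩, ⟨0, hN⟩⟩
  obtain ⟨p₀, R, hloc⟩ := hL K N ω r s n m hn a b hab Γ hΓ F d hd hF σ hns
  obtain ⟨τ, hτ0, hτ1, κ, hκ, Y, hY⟩ := hP K p₀
  set M : ℕ := Fintype.card (Fin n × Fin N) with hMdef
  have hM : M = n * N := by rw [hMdef, Fintype.card_prod, Fintype.card_fin, Fintype.card_fin]
  have hM1 : 1 ≤ M := Fintype.card_pos
  obtain ⟨η, hη0, hη1, H₀, hH₀, hpar⟩ := hPARK R M Y κ τ (1 / 3) hM1 hκ hτ0 hτ1 (by norm_num)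
    (by norm_num)
  refine ⟨η, hη0, hη1, 1 + (2 * (H₀ : ℝ) + 1) ^ M, ?_⟩
  intro δ H hH
  have hHR : (1 : ℝ) ≤ H := by exact_mod_cast hH
  have hexp : (0 : ℝ) ≤ (((n * N : ℕ) : ℝ) - η) := by
    have h1 : (1 : ℝ) ≤ ((n * N : ℕ) : ℝ) := by
      rw [← hM]
      exact_mod_cast hM1
    linarith
  have hpow : (1 : ℝ) ≤ (H : ℝ) ^ (((n * N : ℕ) : ℝ) - η) := Real.one_le_rpow hHR hexp
  have hC0 : (0 : ℝ) ≤ (2 * (H₀ : ℝ) + 1) ^ M := by positivity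
  rcases le_or_gt H₀ H with h | h
  · obtain ⟨y, hyY, hy⟩ := hpar H h
    obtain ⟨T, L, hGT, hTy, hTc, hL1, hL2⟩ := hY y hyY
    obtain ⟨Q, _, hQ, hG⟩ := hloc T L hGT
    obtain ⟨G, hG1, hG2⟩ := hG δ
    obtain ⟨k, hk0, hk⟩ := hy T.card L hTc hL1 hL2
    have hCh : (0 : ℝ) < (T.card.choose k : ℝ) := by exact_mod_cast hk0
    set A : ℝ := (T.card.choose k : ℝ) * (2 * (H : ℝ) + 1) ^ M +
          (T.card.choose k : ℝ) ^ 2 * (M * (y : ℝ) ^ (2 * k) * (2 * (H : ℝ) + 1) ^ (M - 1)) with hA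
    set B : ℝ := (1 / 3 : ℝ) ^ (2 * k) * (T.card.choose k : ℝ) ^ 2 with hB
    have hB0 : 0 < B := by positivity
    have hA0 : 0 ≤ A := by positivity
    have hone : ∀ x : Q, ((({c : Fin n × Fin N → ℤ | (∀ i, |c i| ≤ (H : ℤ)) ∧
        ∀ p ∈ T, (fun s => (c s : ZMod p)) ∈ G x p}.ncard : ℕ)) : ℝ) ≤ A / B := by
      intro x
      rw [le_div_iff₀ hB0]
      exact hMOMK hMOM (Fin n × Fin N) T k y H (1 / 3) (G x) (by norm_num) (by norm_num) (by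
        intro p hp
        refine ⟨(hGT.2 p hp).1, hTy p hp, ?_⟩
        refine (hG1 x p hp).trans (le_of_eq ?_)
        have h23 : (1 : ℝ) - 1 / 3 = 2 / 3 := by norm_num
        rw [h23])
    have hfin : (⋃ x : Q, {c : Fin n × Fin N → ℤ | (∀ i, |c i| ≤ (H : ℤ)) ∧
        ∀ p ∈ T, (fun s => (c s : ZMod p)) ∈ G x p}).Finite :=
      Set.finite_iUnion fun x => (box_card H _).1
    have h1 : (((FibT ω a b Γ F δ H).ncard : ℕ) : ℝ) ≤ (Fintype.card Q : ℝ) * (A / B) := by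
      have h2 : (FibT ω a b Γ F δ H).ncard ≤ ∑ x : Q, {c : Fin n × Fin N → ℤ |
          (∀ i, |c i| ≤ (H : ℤ)) ∧ ∀ p ∈ T, (fun s => (c s : ZMod p)) ∈ G x p}.ncard := by
        refine (Set.ncard_le_ncard (hG2 H) hfin).trans ?_
        have h3 := Finset.set_ncard_biUnion_le (Finset.univ : Finset Q)
          (fun x => {c : Fin n × Fin N → ℤ | (∀ i, |c i| ≤ (H : ℤ)) ∧
            ∀ p ∈ T, (fun s => (c s : ZMod p)) ∈ G x p})
        simpa using h3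
      calc (((FibT ω a b Γ F δ H).ncard : ℕ) : ℝ) ≤ ((∑ x : Q, {c : Fin n × Fin N → ℤ |
          (∀ i, |c i| ≤ (H : ℤ)) ∧ ∀ p ∈ T, (fun s => (c s : ZMod p)) ∈ G x p}.ncard : ℕ) : ℝ) := by
            exact_mod_cast h2
        _ = ∑ x : Q, (({c : Fin n × Fin N → ℤ |
          (∀ i, |c i| ≤ (H : ℤ)) ∧ ∀ p ∈ T, (fun s => (c s : ZMod p)) ∈ G x p}.ncard : ℕ) : ℝ) := by
            push_cast
            rfl
        _ ≤ ∑ _x : Q, A / B := Finset.sum_le_sum fun x _ => hone x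
        _ = (Fintype.card Q : ℝ) * (A / B) := by
            rw [Finset.sum_const, Finset.card_univ, nsmul_eq_mul]
    have h2 : (Fintype.card Q : ℝ) * (A / B) ≤ (L : ℝ) ^ R * (A / B) := by
      apply mul_le_mul_of_nonneg_right _ (by positivity)
      exact_mod_cast hQ
    have h3 : (H : ℝ) ^ ((M : ℝ) - η) = (H : ℝ) ^ (((n * N : ℕ) : ℝ) - η) := by rw [hM]
    have h4 := (h1.trans h2).trans hk
    rw [h3] at h4
    nlinarith
  · have h1 := (box_card (ι := Fin n × Fin N) H (fun c => ∃ (V : Fin r → Fin 3 → K)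
      (u : Fin s → Kˣ) (w : Fin m → K), (∀ i, FD.OnE (a i) (b i) (V i)) ∧ (∀ l, u l ∈ Γ) ∧
      ∀ e, δ e * w e ^ 2 = vl (algebraMap (𝓞 K) K) (F e) V (fun l => ((u l : Kˣ) : K))
        (fun i => ((vec ω c i : 𝓞 K) : K)))).2
    have h2 : (((FibT ω a b Γ F δ H).ncard : ℕ) : ℝ) ≤ (2 * (H : ℝ) + 1) ^ M := h1
    have h3 : (2 * (H : ℝ) + 1) ^ M ≤ (2 * (H₀ : ℝ) + 1) ^ M := by
      have : (H : ℝ) ≤ H₀ := by exact_mod_cast h.le
      gcongr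
    nlinarith

end Pool.Agent.W659.PV
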