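import Pool.Agent.W659.PV.Fin

/-! Project PV (helper659): the truncated counting function. -/

set_option autoImplicit false

namespace Pool.Agent.W659.PV

open MvPolynomial NumberField IsDedekindDomain Pool.Agent.H901R3.MS WeierstrassCurve
  Pool.Agent.W659.SA

open scoped WithZero

variable {K : Type} [Field K] [NumberField K]

/-- the `v`-adic absolute value of a vector -/
noncomputable def vmax {ι : Type} [Fintype ι] [Nonempty ι] (v : HeightOneSpectrum (𝓞 K))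
    (x : ι → K) : ℤᵐ⁰ :=
  Finset.univ.sup' Finset.univ_nonempty (fun i => v.valuation K (x i))

theorem le_vmax {ι : Type} [Fintype ι] [Nonempty ι] (v : HeightOneSpectrum (𝓞 K))
    (x : ι → K) (i : ι) : v.valuation K (x i) ≤ vmax v x :=
  Finset.le_sup' (fun i => v.valuation K (x i)) (Finset.mem_univ i)

theorem vmax_pow_isSquare {ι : Type} [Fintype ι] [Nonempty ι] (v : HeightOneSpectrum (𝓞 K))
    (x : ι → K) {d : ℕ} (hd : Even d) : IsSquare (vmax v x ^ d) := hd.isSquare_pow _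

theorem vmax_int {ι : Type} [Fintype ι] [Nonempty ι] (v : HeightOneSpectrum (𝓞 K))
    (x : ι → 𝓞 K) : vmax v (fun i => ((x i : 𝓞 K) : K)) ≤ 1 :=
  Finset.sup'_le _ _ fun i _ => v.valuation_le_one (x i)

theorem vmax_eq_one {ι : Type} [Fintype ι] [Nonempty ι] (v : HeightOneSpectrum (𝓞 K))
    (x : ι → K) (hx : x ≠ 0) (h : ∀ i, x i ≠ 0 → v.valuation K (x i) = 1) : vmax v x = 1 := by
  apply le_antisymm
  · refine Finset.sup'_le _ _ fun i _ => ?_
    by_cases h0 : x i = 0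
    · rw [h0, map_zero]
      exact zero_le_one
    · exact (h i h0).le
  · obtain ⟨i, hi⟩ := Function.ne_iff.1 hx
    rw [← h i hi]
    exact le_vmax v x i

/-- the bound for the value of a form -/
theorem val_le {k : Type} [Field k] [Algebra k K] {r n : ℕ} (v : HeightOneSpectrum (𝓞 K))
    (F : Pol0 (𝓞 k) r (n + 1)) {d : Fin r → ℕ} {e : ℕ} (hF : MHomog F d) (hFx : XHomog F e)
    (V : Fin r → Fin 3 → K) (t : Fin (n + 1) → K) :
    v.valuation K (vl0 (toL k K) F V t) ≤ (∏ j, vmax v (V j) ^ d j) * vmax v t ^ e := by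
  unfold vl0
  rw [vl_expand]
  refine Valuation.map_sum_le _ fun m hm => ?_
  rw [map_mul, map_mul, map_mul, map_prod, map_prod, map_prod]
  have h1 : v.valuation K (toL k K (coeff m F)) ≤ 1 := by
    have h2 : toL k K (coeff m F) = ((algebraMap (𝓞 k) (𝓞 K) (coeff m F) : 𝓞 K) : K) := rfl
    rw [h2]
    exact v.valuation_le_one _
  have h3 : (∏ i, v.valuation K (∏ j, V i j ^ m (Sum.inl (i, j)))) ≤
      ∏ j, vmax v (V j) ^ d j := by
    refine Finset.prod_le_prod' fun i _ => ?_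
    rw [map_prod, ← hF m hm i, ← Finset.prod_pow_eq_pow_sum]
    refine Finset.prod_le_prod' fun j _ => ?_
    rw [map_pow]
    exact pow_le_pow_left' (le_vmax v (V i) j) _
  have h4 : (∏ l : Fin 0, v.valuation K ((fun _ : Fin 0 => (0 : K)) l ^
      m (Sum.inr (Sum.inl l)))) = 1 := by
    simp
  have h5 : (∏ l, v.valuation K (t l ^ m (Sum.inr (Sum.inr l)))) ≤ vmax v t ^ e := by
    rw [← hFx m hm, ← Finset.prod_pow_eq_pow_sum]
    refine Finset.prod_le_prod' fun j _ => ?_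
    rw [map_pow]
    exact pow_le_pow_left' (le_vmax v t j) _
  rw [h4, one_mul]
  calc _ ≤ 1 * ((∏ j, vmax v (V j) ^ d j) * vmax v t ^ e) :=
        mul_le_mul' h1 (mul_le_mul' h3 h5)
    _ = _ := one_mul _

/-- the primes outside `S` at which the point `(V; t)` meets the divisor `∏ F_i = 0` -/
def Meet {k : Type} [Field k] [Algebra k K] {r n m : ℕ} (S : Set (HeightOneSpectrum (𝓞 K)))
    (F : Fin m → Pol0 (𝓞 k) r (n + 1)) (d : Fin m → Fin r → ℕ) (e : Fin m → ℕ)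
    (V : Fin r → Fin 3 → K) (t : Fin (n + 1) → K) : Set (HeightOneSpectrum (𝓞 K)) :=
  {v | v ∉ S ∧ ∃ i, v.valuation K (vl0 (toL k K) (F i) V t) <
    (∏ j, vmax v (V j) ^ d i j) * vmax v t ^ e i}

/-- the truncated counting function of the divisor `∏ F_i = 0` at the point `(V; t)` -/
noncomputable def N1 {k : Type} [Field k] [Algebra k K] {r n m : ℕ}
    (S : Set (HeightOneSpectrum (𝓞 K))) (F : Fin m → Pol0 (𝓞 k) r (n + 1))
    (d : Fin m → Fin r → ℕ) (e : Fin m → ℕ) (V : Fin r → Fin 3 → K) (t : Fin (n + 1) → K) : ℝ :=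
  ∑ᶠ v ∈ Meet S F d e V t, Real.log (Ideal.absNorm v.asIdeal)

theorem odd_sub_meet {k : Type} [Field k] [Algebra k K] {r n m : ℕ}
    (S : Set (HeightOneSpectrum (𝓞 K))) (F : Fin m → Pol0 (𝓞 k) r (n + 1))
    (d : Fin m → Fin r → ℕ) (e : Fin m → ℕ) (hd : ∀ i j, Even (d i j)) (he : ∀ i, Even (e i))
    (hF : ∀ i, MHomog (F i) (d i)) (hFx : ∀ i, XHomog (F i) (e i))
    (V : Fin r → Fin 3 → K) (t : Fin (n + 1) → K) (i : Fin m) :
    OddP S (vl0 (toL k K) (F i) V t) ⊆ Meet S F d e V t := by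
  rintro v ⟨hv, hsq⟩
  refine ⟨hv, i, lt_of_le_of_ne (val_le v (F i) (hF i) (hFx i) V t) fun h => hsq ?_⟩
  rw [h]
  refine IsSquare.mul ?_ ((he i).isSquare_pow _)
  choose m' hm' using hd i
  refine ⟨∏ j, vmax v (V j) ^ m' j, ?_⟩
  rw [← Finset.prod_mul_distrib]
  refine Finset.prod_congr rfl fun j _ => ?_
  rw [hm' j, pow_add]

theorem meet_finite {k : Type} [Field k] [Algebra k K] {r n m : ℕ}
    (S : Set (HeightOneSpectrum (𝓞 K))) (F : Fin m → Pol0 (𝓞 k) r (n + 1))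
    (d : Fin m → Fin r → ℕ) (e : Fin m → ℕ)
    (V : Fin r → Fin 3 → K) (hV : ∀ i, V i ≠ 0) (t : Fin (n + 1) → 𝓞 K)
    (h0 : ∀ i, vl0 (toL k K) (F i) V (fun l => ((t l : 𝓞 K) : K)) ≠ 0) :
    (Meet S F d e V (fun l => ((t l : 𝓞 K) : K))).Finite := by
  have hfin : ∀ x : K, x ≠ 0 → {v : HeightOneSpectrum (𝓞 K) | v.valuation K x ≠ 1}.Finite :=
    fun x hx => Pool.Agent.H437R2.Man.MW.finite_val_ne_one x hx
  have h1 : ((⋃ i, {v : HeightOneSpectrum (𝓞 K) |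
      v.valuation K (vl0 (toL k K) (F i) V (fun l => ((t l : 𝓞 K) : K))) ≠ 1}) ∪
      ⋃ i, ⋃ j, {v : HeightOneSpectrum (𝓞 K) | V i j ≠ 0 ∧ v.valuation K (V i j) ≠ 1}).Finite := by
    refine (Set.finite_iUnion fun i => hfin _ (h0 i)).union (Set.finite_iUnion fun i =>
      Set.finite_iUnion fun j => ?_)
    by_cases hij : V i j = 0
    · refine Set.Finite.subset Set.finite_empty ?_
      rintro v ⟨h, _⟩
      exact absurd hij h
    · exact (hfin _ hij).subset fun v hv => hv.2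
  refine h1.subset ?_
  rintro v ⟨_, i, hi⟩
  by_contra hcon
  rw [Set.mem_union, not_or, Set.mem_iUnion, Set.mem_iUnion] at hcon
  obtain ⟨hc1, hc2⟩ := hcon
  push Not at hc1 hc2
  have h2 : v.valuation K (vl0 (toL k K) (F i) V (fun l => ((t l : 𝓞 K) : K))) = 1 := by
    by_contra h
    exact hc1 i h
  have h3 : ∀ j, vmax v (V j) = 1 := by
    intro j
    refine vmax_eq_one v (V j) (hV j) fun l hl => ?_
    by_contra h
    exact hc2 j (Set.mem_iUnion.2 ⟨l, hl, h⟩)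
  rw [h2] at hi
  have h4 : (∏ j, vmax v (V j) ^ d i j) * vmax v (fun l => ((t l : 𝓞 K) : K)) ^ e i ≤ 1 := by
    have h5 : (∏ j, vmax v (V j) ^ d i j) = 1 :=
      Finset.prod_eq_one fun j _ => by rw [h3 j, one_pow]
    rw [h5, one_mul]
    exact pow_le_one' (vmax_int v t) _
  exact absurd hi (not_lt.2 h4)

theorem one_le_absNorm (v : HeightOneSpectrum (𝓞 K)) : 1 ≤ Ideal.absNorm v.asIdeal := by
  refine Nat.one_le_iff_ne_zero.2 ?_
  rw [Ideal.absNorm_ne_zero_iff]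
  exact Ideal.finiteQuotientOfFreeOfNeBot v.asIdeal v.ne_bot

theorem log_odd_le {A B : Set (HeightOneSpectrum (𝓞 K))} (hAB : A ⊆ B) (hB : B.Finite) :
    Real.log ((∏ᶠ v ∈ A, Ideal.absNorm v.asIdeal : ℕ) : ℝ) ≤
      ∑ᶠ v ∈ B, Real.log (Ideal.absNorm v.asIdeal) := by
  classical
  have hA : A.Finite := hB.subset hAB
  rw [finprod_mem_eq_finite_toFinset_prod _ hA, finsum_mem_eq_finite_toFinset_sum _ hB]
  push_cast
  rw [Real.log_prod (fun v _ => by
    have := one_le_absNorm v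
    positivity)]
  refine Finset.sum_le_sum_of_subset_of_nonneg ?_ ?_
  · intro v hv
    rw [Set.Finite.mem_toFinset] at hv ⊢
    exact hAB hv
  · intro v _ _
    exact Real.log_nonneg (by exact_mod_cast one_le_absNorm v)

/-- the coefficient vectors of the `t ∈ (𝓞 K)^(n+1)` in a box such that there is a point `(P, t)`,
`P ∈ A(K)`, of the variety `G_e(P; t) = 0`, not on the divisor `∏ F_i = 0`, at which the truncated
counting function of the divisor is at most `β` -/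
def FibN (k : Type) [Field k] {K : Type} [Field K] [NumberField K] [Algebra k K] {N : ℕ}
    (ω : Module.Basis (Fin N) ℤ (𝓞 K)) {r n q m : ℕ} (a b : Fin r → ℤ)
    (S : Set (HeightOneSpectrum (𝓞 K))) (G : Fin q → Pol0 (𝓞 k) r (n + 1))
    (F : Fin m → Pol0 (𝓞 k) r (n + 1)) (d : Fin m → Fin r → ℕ) (e : Fin m → ℕ) (β : ℝ) (H : ℕ) :
    Set (Fin (n + 1) × Fin N → ℤ) :=
  {c | (∀ i, |c i| ≤ H) ∧ ∃ V : Fin r → Fin 3 → K, (∀ i, FD.OnE (a i) (b i) (V i)) ∧
    (∀ j, vl0 (toL k K) (G j) V (fun l => ((vec ω c l : 𝓞 K) : K)) = 0) ∧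
    (∀ i, vl0 (toL k K) (F i) V (fun l => ((vec ω c l : 𝓞 K) : K)) ≠ 0) ∧
      N1 S F d e V (fun l => ((vec ω c l : 𝓞 K) : K)) ≤ β}

theorem truncExt (k : Type) [Field k] [NumberField k] (r n q m : ℕ)
    (a b : Fin r → ℤ) (hab : ∀ i, a i * b i = 0 ∧ (a i ≠ 0 ∨ b i ≠ 0))
    (G : Fin q → Pol0 (𝓞 k) r (n + 1)) (d' : Fin q → Fin r → ℕ) (hG : ∀ e, MHomog (G e) (d' e))
    (F : Fin m → Pol0 (𝓞 k) r (n + 1)) (d : Fin m → Fin r → ℕ) (e : Fin m → ℕ)
    (hd : ∀ i j, Even (d i j)) (he : ∀ i, Even (e i)) (hF : ∀ i, MHomog (F i) (d i))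
    (hFx : ∀ i, XHomog (F i) (e i)) (σ : k →+* ℂ)
    (hns : ∀ (V : Fin r → Fin 3 → ℂ), (∀ i, FD.OnE (a i) (b i) (V i)) →
      (∃ e, spc0 (toC σ) (G e) V ≠ 0) ∨
        ∃ e, ∀ g : MvPolynomial (Fin (n + 1)) ℂ, spc0 (toC σ) (F e) V ≠ g ^ 2)
    (K : Type) [Field K] [NumberField K] [Algebra k K] (N : ℕ)
    (ω : Module.Basis (Fin N) ℤ (𝓞 K)) (S : Set (HeightOneSpectrum (𝓞 K))) (hS : S.Finite) :
    ∃ c : ℝ, 0 < c ∧ ∃ η : ℝ, 0 < η ∧ ∃ C : ℝ, ∀ H : ℕ, 1 ≤ H →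
      (((FibN k ω a b S G F d e (c * Real.log H) H).ncard : ℕ) : ℝ) ≤
        C * (H : ℝ) ^ ((((n + 1) * N : ℕ) : ℝ) - η) := by
  obtain ⟨η, hη0, hη1, C, hC, h⟩ := oddExt k r n q m a b hab G d' hG F d hd hF σ hns K N ω S hS
  set c : ℝ := η / (4 * (m + 1)) with hc
  have hm0 : (0 : ℝ) < 4 * ((m : ℝ) + 1) := by positivity
  have hc0 : 0 < c := div_pos hη0 hm0
  refine ⟨c, hc0, η / 2, by positivity, C, fun H hH => ?_⟩
  have hHR : (1 : ℝ) ≤ H := by exact_mod_cast hH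
  have hH0 : (0 : ℝ) < H := by linarith
  have hDR : (1 : ℝ) ≤ (H : ℝ) ^ c := Real.one_le_rpow hHR hc0.le
  have hD : 1 ≤ ⌊(H : ℝ) ^ c⌋₊ := Nat.le_floor (by exact_mod_cast hDR)
  have hcη : 2 * (m : ℝ) * c ≤ η / 2 := by
    have h1 : c * (4 * ((m : ℝ) + 1)) = η := div_mul_cancel₀ _ hm0.ne'
    nlinarith
  refine const_aux hη0 hC m ((n + 1) * N) c hc0.le hcη hH (le_trans ?_ (h _ H hD hH))
  have hsub : FibN k ω a b S G F d e (c * Real.log H) H ⊆ FibO k ω a b S G F ⌊(H : ℝ) ^ c⌋₊ H := by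
    rintro t ⟨ht, V, hV, hG0, hF0, hN⟩
    refine ⟨ht, V, hV, hG0, fun i => Or.inr ?_⟩
    have h1 := log_odd_le (odd_sub_meet S F d e hd he hF hFx V
      (fun l => ((vec ω t l : 𝓞 K) : K)) i) (meet_finite S F d e V (fun i => (hV i).1)
        (fun l => vec ω t l) hF0)
    have h2 := h1.trans hN
    refine Nat.le_floor ?_
    show ((oddNorm S (vl0 (toL k K) (F i) V (fun i => ((vec ω t i : 𝓞 K) : K))) : ℕ) : ℝ) ≤ _
    rcases Nat.eq_zero_or_pos (oddNorm S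
      (vl0 (toL k K) (F i) V (fun i => ((vec ω t i : 𝓞 K) : K)))) with h3 | h3
    · rw [h3, Nat.cast_zero]
      positivity
    · have h4 : (0 : ℝ) < (oddNorm S
        (vl0 (toL k K) (F i) V (fun i => ((vec ω t i : 𝓞 K) : K))) : ℝ) := by exact_mod_cast h3
      rw [← Real.log_le_log_iff h4 (by positivity), Real.log_rpow hH0]
      exact h2
  exact_mod_cast Set.ncard_le_ncard hsub (box_card H _).1

end Pool.Agent.W659.PV
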